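import Pool.Agent.Helper4.PQ0.St

/-! # Project PQS (MP_2b6189_al): module CDO (the combinatorial data of `X`) -/

set_option autoImplicit false

namespace Pool.Agent.Helper7.PQ0

open Pool.Agent.Helper4.PQ0
open Matrix ComplexConjugate Pool.Agent.Helper94.YF Pool.Agent.Helper94.YG
open Pool.Agent.Helper89.OS hiding PD Cx Blk B0 Orb StXA StXB StXC StXE StCGR StISO StBLK StAMG StHEC StSTL StMZZ StDRE StTSU
open Pool.Agent.Helper89.OC hiding Ks gX OB Lk StORB StTS2 StLKD StTAN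

/-- divisibility of a sum over a set which is the union of orbits -/
theorem dvd_orbits' {I : Type} [DecidableEq I] (K : Finset I) (O : I → Finset I) (f : I → ℤ) (g : ℤ)
    (hOK : ∀ k ∈ K, O k ⊆ K) (hOs : ∀ k ∈ K, k ∈ O k) (hOe : ∀ k ∈ K, ∀ j ∈ O k, O j = O k)
    (hf : ∀ k ∈ K, ∀ j ∈ O k, f j = f k) (hg : ∀ k ∈ K, g ∣ ((O k).card : ℤ) * f k) :
    g ∣ ∑ k ∈ K, f k := by
  have h1 : ∑ T ∈ K.image O, ∑ k ∈ K.filter (fun k => O k = T), f k = ∑ k ∈ K, f k :=
    Finset.sum_fiberwise_of_maps_to (fun k hk => Finset.mem_image_of_mem O hk) f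
  rw [← h1]
  apply Finset.dvd_sum
  intro T hT
  obtain ⟨k0, hk0, rfl⟩ := Finset.mem_image.1 hT
  have h2 : K.filter (fun k => O k = O k0) = O k0 := by
    ext k
    rw [Finset.mem_filter]
    constructor
    · rintro ⟨hk, hkO⟩
      rw [← hkO]
      exact hOs k hk
    · intro hk
      exact ⟨hOK k0 hk0 hk, hOe k0 hk0 k hk⟩
  rw [h2, Finset.sum_congr rfl (fun k hk => hf k0 hk0 k hk), Finset.sum_const, nsmul_eq_mul]
  exact hg k0 hk0

theorem hCDO : StCDO := by
  intro hMZZ hDRE hTSU hSTL hHEC hORB hRAT I _ _ p _ X Q hB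
  obtain ⟨-, hsq, -, hxp, hg1, hx1, -⟩ := hMZZ I p X hB.x_nd
  obtain ⟨hD1, -, hD3, -⟩ := hDRE hSTL hHEC hMZZ I p X Q hB
  have hT := hTSU hSTL hHEC hMZZ hRAT I p X Q hB
  have hO := hORB I p X
  have hpp : (2 : ℤ) ≤ p := by exact_mod_cast X.prime.two_le
  have hgx : gX X = (p : ℤ) - X.y X.o := rfl
  have hg0 : gX X ≠ 0 := by rw [hgx]; omega
  have hp3 : 3 ≤ p := by
    have h1 := X.prime.two_le
    obtain ⟨r, hr⟩ := X.p_odd
    omega
  have hKm : ∀ k, k ∈ Ks X ↔ X.y k ≠ 0 ∧ X.t k = 1 ∧ k ≠ X.o := by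
    intro k
    simp [Ks]
  have hOK : ∀ k ∈ Ks X, Orb X k ⊆ Ks X := by
    intro k hk j hj
    obtain ⟨h1, h2, h3⟩ := (hKm k).1 hk
    rw [hKm]
    refine ⟨by rw [hO.y k j hj]; exact h1, hO.t k j hj h2, ?_⟩
    rintro rfl
    exact h3 (hO.o k hj)
  have hOs : ∀ k ∈ Ks X, k ∈ Orb X k := fun k _ => hO.self k
  have hOy : ∀ k ∈ Ks X, ∀ j ∈ Orb X k, X.y j = X.y k ∧ X.d j = X.d k := by
    intro k _ j hj
    exact ⟨hO.y k j hj, hO.d k j hj⟩
  have hOe : ∀ k ∈ Ks X, ∀ j ∈ Orb X k, Orb X j = Orb X k := by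
    intro k _ j hj
    exact hO.eq k j hj
  have hOg : ∀ k ∈ Ks X, gX X ∣ ((Orb X k).card : ℤ) * X.y k := by
    intro k hk
    obtain ⟨h1, h2, h3⟩ := (hKm k).1 hk
    exact (hT k h1 h2 h3).2
  -- sums over K
  have hsum : ∀ f : I → ℤ, (∀ k, X.y k = 0 → f k = 0) →
      ∑ k ∈ Ks X, f k = (∑ k, if X.t k = 1 then f k else 0) - f X.o := by
    intro f hf
    have h1 : (∑ k, if X.t k = 1 then f k else 0) =
        ∑ k ∈ Finset.univ.filter (fun k => X.t k = 1), f k := by
      rw [Finset.sum_filter]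
    have h2 : X.o ∈ Finset.univ.filter (fun k => X.t k = 1) := by
      simp [X.t_o]
    have h3 := Finset.sum_erase_add (Finset.univ.filter (fun k => X.t k = 1)) f h2
    have h4 : ∑ k ∈ Ks X, f k =
        ∑ k ∈ (Finset.univ.filter (fun k => X.t k = 1)).erase X.o, f k := by
      apply Finset.sum_subset
      · intro k hk
        obtain ⟨h1, h2, h3⟩ := (hKm k).1 hk
        simp [h2, h3]
      · intro k hk hkK
        rw [Finset.mem_erase, Finset.mem_filter] at hk
        apply hf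
        by_contra hy
        exact hkK ((hKm k).2 ⟨hy, hk.2.2, hk.1⟩)
    rw [h1, h4]
    linarith
  have hsqK : ∑ k ∈ Ks X, X.y k ^ 2 = gX X * (p + 1 - gX X) := by
    rw [hsum (fun k => X.y k ^ 2) (by intro k hk; simp [hk]), hsq, hgx]
    ring
  have hdimK : ∑ k ∈ Ks X, X.y k * (X.d k : ℤ) = (p * X.z X.o - 1) + gX X := by
    rw [hsum (fun k => X.y k * (X.d k : ℤ)) (by intro k hk; simp [hk]), hD3, X.d_o, hgx]
    push_cast
    ring
  have hgd : gX X ∣ ∑ k ∈ Ks X, X.y k * (X.d k : ℤ) := by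
    apply dvd_orbits' (Ks X) (Orb X) _ (gX X) hOK hOs hOe
    · intro k hk j hj
      rw [(hOy k hk j hj).1, (hOy k hk j hj).2]
    · intro k hk
      rw [← mul_assoc]
      exact Dvd.dvd.mul_right (hOg k hk) _
  have hgE : gX X ∣ (p : ℤ) * X.z X.o - 1 := by
    rw [hdimK] at hgd
    exact (Int.dvd_add_left (dvd_refl (gX X))).1 hgd
  obtain ⟨D, hD⟩ := hgE
  have hrel : ∀ k ∈ Ks X, (X.d k : ℤ) = D * X.y k + p * X.z k := by
    intro k hk
    obtain ⟨h1, h2, h3⟩ := (hKm k).1 hk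
    have h4 := hD1 k h1 h2 h3
    rw [hD, ← hgx] at h4
    apply mul_left_cancel₀ hg0
    rw [h4]
    ring
  have hdz : ∀ k ∈ Ks X, (X.d k : ℤ) ∣ X.z k := by
    intro k hk
    obtain ⟨h1, h2, h3⟩ := (hKm k).1 hk
    have h4 : (X.d k : ℤ) ∣ p * X.z k := X.z_dvd k
    have h5 : IsCoprime (X.d k : ℤ) (p : ℤ) := by
      rw [Nat.isCoprime_iff_coprime]
      exact ((Nat.Prime.coprime_iff_not_dvd X.prime).2 (hB.d_nd k h1)).symm
    exact h5.dvd_of_dvd_mul_left h4
  have hdvd : ∀ k ∈ Ks X, (X.d k : ℤ) ∣ D * X.y k := by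
    intro k hk
    have h1 : D * X.y k = (X.d k : ℤ) - p * X.z k := by
      rw [hrel k hk]
      ring
    rw [h1]
    exact dvd_sub (dvd_refl _) (Dvd.dvd.mul_left (hdz k hk) _)
  have hpos : ∃ k ∈ Ks X, 0 < X.y k := by
    by_contra hcon
    push Not at hcon
    have h1 := X.kap_y
    rw [← Finset.add_sum_erase Finset.univ _ (Finset.mem_univ X.o)] at h1
    have h2 : ∑ i ∈ Finset.univ.erase X.o, X.y i * (X.kap i : ℤ) ≤ 0 := by
      apply Finset.sum_nonpos
      intro i hi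
      have hio : i ≠ X.o := (Finset.mem_erase.1 hi).1
      rcases Nat.eq_zero_or_pos (X.kap i) with h0 | h0
      · rw [h0]; simp
      · rcases le_or_gt (X.y i) 0 with h3 | h3
        · exact mul_nonpos_of_nonpos_of_nonneg h3 (by positivity)
        · exact absurd (hcon i ((hKm i).2 ⟨h3.ne', X.kap_t i h0.ne', hio⟩)) (not_le.2 h3)
    rw [X.kap_o] at h1
    push_cast at h1
    rw [mul_one] at h1
    omega
  exact ⟨{ K := Ks X, y := X.y, d := X.d, z := X.z, O := Orb X, g := gX X, D := D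
           prime := X.prime
           p3 := hp3
           g_ge := hg1
           g_le := by rw [hgx]; omega
           y_ne := fun k hk => ((hKm k).1 hk).1
           d_pos := X.d_pos
           d_nd := fun k hk => hB.d_nd k ((hKm k).1 hk).1
           sq := hsqK
           dim := by rw [hdimK, hD]; ring
           rel := hrel
           dvd := hdvd
           gD := ⟨X.z X.o, by linarith⟩
           pos := hpos
           O_K := hOK
           O_self := hOs
           O_y := hOy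
           O_eq := hOe
           O_g := hOg }, rfl, rfl, rfl, rfl, rfl⟩

end Pool.Agent.Helper7.PQ0
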