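import Pool.Agent.Helper4.PQ0.St2
import Pool.Agent.Helper10.PQ0.M_TIX

/-! # Project PQS (MP_2b6189_al): module A2S (`s k l` depends only on the orbits, second case) -/

set_option autoImplicit false

namespace Pool.Agent.Helper7.PQ0

open Pool.Agent.Helper4.PQ0
open Matrix ComplexConjugate Pool.Agent.Helper94.YF Pool.Agent.Helper94.YG
open Pool.Agent.Helper89.OS hiding PD Cx Blk B0 Orb StXA StXB StXC StXE StCGR StISO StBLK StAMG StHEC StSTL StMZZ StDRE StTSU
open Pool.Agent.Helper89.OC hiding Ks gX OB Lk StORB StTS2 StLKD StTAN Kp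
open Pool.Agent.Helper10.PQ0

open Classical in
/-- the double sum: `(p² - p) ∑_{K0} s k l s l j = p ∑_w s k (pi w j)` -/
theorem a2s_dbl {I : Type} [Fintype I] [DecidableEq I] {p : ℕ} (X : PD I p 2) {Q : ℂ → Prop}
    (hB : Blk X Q) (hH : ∀ k, X.y k ≠ 0 → X.t k ^ p = 1 → X.t k = 1) [NeZero (p ^ 2)]
    (k j : I) (hk : X.y k ≠ 0) (htk : X.t k = 1) (htj : X.t j = 1) :
    ((p : ℂ) ^ 2 - p) * (∑ l, if X.y l ≠ 0 ∧ X.t l = 1 then X.s k l * X.s l j else 0) =
      (p : ℂ) * ∑ w : (ZMod (p ^ 2))ˣ, X.s k (X.pi w j) := by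
  have hp : p.Prime := X.prime
  have hroot : ∀ l, X.y l ≠ 0 → ∑ w : (ZMod (p ^ 2))ˣ, X.t l ^ (w : ZMod (p ^ 2)).val =
      if X.t l = 1 then (p : ℂ) ^ 2 - p else 0 := by
    intro l hl
    rw [Pool.Agent.Helper16.OS.TWA_T hp (X.t l) (X.t_pow l)]
    by_cases h1 : X.t l = 1
    · rw [if_pos h1, if_pos h1, h1, one_pow, if_pos rfl]
    · rw [if_neg h1, if_neg h1, if_neg (fun h => h1 (hH l hl h)), sub_zero]
  have h1 : ((p : ℂ) ^ 2 - p) *
      (∑ l, if X.y l ≠ 0 ∧ X.t l = 1 then X.s k l * X.s l j else 0) =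
      ∑ w : (ZMod (p ^ 2))ˣ, ∑ l, X.t l ^ (w : ZMod (p ^ 2)).val * (X.s k l * X.s l j) := by
    rw [Finset.sum_comm, Finset.mul_sum]
    refine Finset.sum_congr rfl fun l _ => ?_
    rw [← Finset.sum_mul]
    by_cases hl : X.y l = 0
    · rw [if_neg (fun h => h.1 hl), hB.sup k l hk hl]
      ring
    · rw [hroot l hl]
      by_cases h1 : X.t l = 1
      · rw [if_pos ⟨hl, h1⟩, if_pos h1]
      · rw [if_neg (fun h => h1 h.2), if_neg h1]
        ring
  rw [h1, Finset.mul_sum]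
  refine Fintype.sum_equiv (Equiv.inv _) _ _ fun w => ?_
  rw [X.weil w k j, htk, htj, one_pow, mul_one, mul_one]
  rfl

open Classical in
theorem a2s_orb {I : Type} [Fintype I] [DecidableEq I] {p a : ℕ} (X : PD I p a) (k : I)
    (hk : X.y k ≠ 0) (htk : X.t k = 1) (hko : k ≠ X.o) (i : I) (hi : i ∈ Orb X k) :
    X.y i = X.y k ∧ X.t i = 1 ∧ i ≠ X.o := by
  obtain ⟨c, rfl⟩ := TIX_orbEx X k i hi
  refine ⟨X.pi_y c k, by rw [X.pi_t, htk, one_pow], ?_⟩
  intro h
  apply hko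
  rw [← X.pi_one k, ← inv_mul_cancel c, X.pi_mul, h, X.pi_o]

open Classical in
/-- `r ∑_w s k (pi w k) = (number of units) ∑_{Orb k} s k i` -/
theorem a2s_avg {I : Type} [Fintype I] [DecidableEq I] {p a : ℕ} (X : PD I p a) [NeZero (p ^ a)]
    (k : I) :
    ((Orb X k).card : ℂ) * ∑ w : (ZMod (p ^ a))ˣ, X.s k (X.pi w k) =
      (Fintype.card (ZMod (p ^ a))ˣ : ℂ) * ∑ i ∈ Orb X k, X.s k i := by
  have h1 : ∀ i ∈ Orb X k, ∑ w : (ZMod (p ^ a))ˣ, X.s k (X.pi w i) =
      ∑ w : (ZMod (p ^ a))ˣ, X.s k (X.pi w k) := by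
    intro i hi
    obtain ⟨c, rfl⟩ := TIX_orbEx X k i hi
    refine Fintype.sum_equiv (Equiv.mulRight c) _ _ fun w => ?_
    rw [← X.pi_mul]
    rfl
  have h2 : ∑ i ∈ Orb X k, ∑ w : (ZMod (p ^ a))ˣ, X.s k (X.pi w i) =
      ((Orb X k).card : ℂ) * ∑ w : (ZMod (p ^ a))ˣ, X.s k (X.pi w k) := by
    rw [Finset.sum_congr rfl h1, Finset.sum_const, nsmul_eq_mul]
  rw [← h2, Finset.sum_comm]
  have h3 : ∀ w ∈ (Finset.univ : Finset (ZMod (p ^ a))ˣ),
      ∑ i ∈ Orb X k, X.s k (X.pi w i) = ∑ i ∈ Orb X k, X.s k i := by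
    intro w _
    refine Finset.sum_equiv (TIX_piE X w) ?_ ?_
    · intro i
      exact (TIX_orbInv X k w i).symm
    · intro i _
      rfl
  rw [Finset.sum_congr rfl h3, Finset.sum_const, nsmul_eq_mul, Finset.card_univ]

theorem hA2S : StA2S := by
  classical
  intro I _ _ p X Q hB hM hF k hk l₀ hl₀ htl₀
  have hp : p.Prime := X.prime
  have hNZ : NeZero (p ^ 2) := ⟨pow_ne_zero _ hp.ne_zero⟩
  have hp0 : (p : ℂ) ≠ 0 := by exact_mod_cast hp.ne_zero
  have hp1 : (p : ℂ) - 1 ≠ 0 := by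
    intro h
    have h1 : (p : ℂ) = ((1 : ℕ) : ℂ) := by
      rw [Nat.cast_one]
      exact sub_eq_zero.1 h
    have h2 : p = 1 := by exact_mod_cast h1
    exact hp.one_lt.ne' h2
  have hpp : (p : ℂ) ^ 2 - p ≠ 0 := by
    have : (p : ℂ) ^ 2 - p = p * (p - 1) := by ring
    rw [this]
    exact mul_ne_zero hp0 hp1
  obtain ⟨hky, hkt, hko⟩ : X.y k ≠ 0 ∧ X.t k = 1 ∧ k ≠ X.o := by
    simpa [Kp] using hk
  have hyo : X.y X.o ≠ 0 := by
    intro h
    apply hB.x_nd
    rw [h]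
    exact dvd_zero _
  have horb := a2s_orb X k hky hkt hko
  -- the number of units
  have hcard : (Fintype.card (ZMod (p ^ 2))ˣ : ℂ) = (p : ℂ) ^ 2 - p := by
    rw [ZMod.card_units_eq_totient, Nat.totient_prime_pow hp (by norm_num)]
    have h1 : 1 ≤ p := hp.one_lt.le
    push_cast [Nat.cast_sub h1]
    norm_num
    ring
  set r : ℂ := ((Orb X k).card : ℂ) with hr
  set g : ℂ := ((gp X : ℤ) : ℂ) with hg
  set yk : ℂ := ((X.y k : ℤ) : ℂ) with hyk
  have hgx : g = (p : ℂ) - X.y X.o := by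
    rw [hg]
    unfold gp
    push_cast
    ring
  have hx2 : 2 * ((X.y X.o : ℤ) : ℂ) = p + 1 := by
    have := hF.x
    exact_mod_cast this
  -- (1)
  set S : ℂ := ∑ l, if X.y l ≠ 0 ∧ X.t l = 1 then X.s k l * conj (X.s k l) else 0 with hS
  have hS1 : ((p : ℂ) ^ 2 - p) * S = (p : ℂ) * ∑ w : (ZMod (p ^ 2))ˣ, X.s k (X.pi w k) := by
    have h1 := a2s_dbl X hB hF.t1 k (X.pi (-1) k) hky hkt (by rw [X.pi_t, hkt, one_pow])
    have h2 : S = ∑ l, if X.y l ≠ 0 ∧ X.t l = 1 then X.s k l * X.s l (X.pi (-1) k) else 0 := by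
      rw [hS]
      refine Finset.sum_congr rfl fun l _ => ?_
      rw [X.s_symm k l, X.conj_s l k]
    rw [h2, h1]
    congr 1
    refine Fintype.sum_equiv (Equiv.mulRight (-1)) _ _ fun w => ?_
    rw [← X.pi_mul]
    rfl
  have hS2 : r * S = (p : ℂ) * ∑ i ∈ Orb X k, X.s k i := by
    apply mul_left_cancel₀ hpp
    have h1 := a2s_avg X k
    rw [hcard] at h1
    calc ((p : ℂ) ^ 2 - p) * (r * S) = r * (((p : ℂ) ^ 2 - p) * S) := by ring
      _ = (p : ℂ) * (r * ∑ w : (ZMod (p ^ 2))ˣ, X.s k (X.pi w k)) := by rw [hS1]; ring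
      _ = (p : ℂ) * (((p : ℂ) ^ 2 - p) * ∑ i ∈ Orb X k, X.s k i) := by rw [h1]
      _ = ((p : ℂ) ^ 2 - p) * ((p : ℂ) * ∑ i ∈ Orb X k, X.s k i) := by ring
  set G : I → ℂ := fun l => g * (if l ∈ Orb X k then 1 else 0) + r * yk * (if l = X.o then 1 else 0)
    with hG
  set Y0 : I → ℂ := fun l => if X.y l ≠ 0 ∧ X.t l = 1 then ((X.y l : ℤ) : ℂ) else 0 with hY0
  have hkk : k ∈ Orb X k := by
    unfold Orb
    simp only [Finset.mem_filter, Finset.mem_univ, true_and]
    exact ⟨1, X.pi_one k⟩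
  have hfix : ∑ l, X.s k l * G l = (p : ℂ) * g := by
    have h1 := hF.fix k hk k
    rw [if_pos hkk, if_neg hko] at h1
    rw [hG]
    rw [h1]
    ring
  have hy0 : ∑ l, X.s k l * Y0 l = (p : ℂ) * yk := by
    have h1 := hF.y0 k
    rw [if_pos ⟨hky, hkt⟩] at h1
    exact h1
  have hU : g * (∑ i ∈ Orb X k, X.s k i) + r * yk * yk = (p : ℂ) * g := by
    rw [← hfix, hG]
    have h1 : ∀ l, X.s k l * (g * (if l ∈ Orb X k then (1 : ℂ) else 0) +
        r * yk * (if l = X.o then 1 else 0)) =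
        g * (if l ∈ Orb X k then X.s k l else 0) + r * yk * (if l = X.o then X.s k l else 0) := by
      intro l
      split_ifs <;> ring
    simp only [h1]
    rw [Finset.sum_add_distrib, ← Finset.mul_sum, ← Finset.mul_sum, Finset.sum_ite_mem,
      Finset.univ_inter, Finset.sum_ite_eq' Finset.univ X.o, if_pos (Finset.mem_univ _), X.s_o]
  set W : ℂ := (p : ℂ) * ((p : ℂ) * g - r * yk * yk) with hW
  have hNS : g * r * S = W := by
    have : g * r * S = g * (r * S) := by ring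
    rw [this, hS2, hW]
    linear_combination (p : ℂ) * hU
  -- the vector V
  set V : I → ℂ := fun l => -(r * yk * Y0 l) + (p : ℂ) * G l with hV
  have hsV : ∑ l, X.s k l * V l = W := by
    have h1 : ∀ l, X.s k l * V l = -(r * yk) * (X.s k l * Y0 l) + (p : ℂ) * (X.s k l * G l) := by
      intro l
      rw [hV]
      ring
    rw [Finset.sum_congr rfl fun l _ => h1 l, Finset.sum_add_distrib, ← Finset.mul_sum,
      ← Finset.mul_sum, hy0, hfix, hW]
    ring
  -- sums
  have hoorb : X.o ∉ Orb X k := fun h => (horb X.o h).2.2 rfl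
  have hYY : ∑ l, Y0 l * Y0 l = (p : ℂ) * X.y X.o := by
    have h1 : ∀ l, Y0 l * Y0 l = ((if l ∈ Kp X then X.y l ^ 2 else 0 : ℤ) : ℂ) +
        ((if l = X.o then X.y X.o ^ 2 else 0 : ℤ) : ℂ) := by
      intro l
      rw [hY0]
      by_cases hlo : l = X.o
      · have h2 : l ∉ Kp X := by simp [Kp, hlo]
        rw [if_neg h2, if_pos hlo, hlo]
        simp only [if_pos (show X.y X.o ≠ 0 ∧ X.t X.o = 1 from ⟨hyo, X.t_o⟩)]
        push_cast
        ring
      · rw [if_neg hlo]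
        by_cases h2 : X.y l ≠ 0 ∧ X.t l = 1
        · have h3 : l ∈ Kp X := by
            simp only [Kp, Finset.mem_filter, Finset.mem_univ, true_and]
            exact ⟨h2.1, h2.2, hlo⟩
          simp only [if_pos h2, if_pos h3]
          push_cast
          ring
        · have h3 : l ∉ Kp X := by
            simp only [Kp, Finset.mem_filter, Finset.mem_univ, true_and]
            exact fun h => h2 ⟨h.1, h.2.1⟩
          simp only [if_neg h2, if_neg h3]
          push_cast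
          ring
    have h2 : (∑ l, (if l ∈ Kp X then X.y l ^ 2 else 0 : ℤ)) = gp X * (gp X + 1) := by
      rw [Finset.sum_ite_mem, Finset.univ_inter, hF.sq]
    rw [Finset.sum_congr rfl fun l _ => h1 l, Finset.sum_add_distrib, ← Int.cast_sum,
      ← Int.cast_sum, h2, Finset.sum_ite_eq' Finset.univ X.o, if_pos (Finset.mem_univ _)]
    push_cast
    rw [← hg, hgx]
    linear_combination (((X.y X.o : ℤ) : ℂ) - p) * hx2
  have hYG : ∑ l, Y0 l * G l = r * yk * p := by
    have h1 : ∀ l, Y0 l * G l = g * (if l ∈ Orb X k then yk else 0) +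
        r * yk * (if l = X.o then ((X.y X.o : ℤ) : ℂ) else 0) := by
      intro l
      rw [hY0, hG]
      by_cases hlo : l = X.o
      · rw [hlo]
        simp only [if_pos (show X.y X.o ≠ 0 ∧ X.t X.o = 1 from ⟨hyo, X.t_o⟩), if_neg hoorb, if_true]
        ring
      · by_cases h2 : l ∈ Orb X k
        · obtain ⟨h3, h4, -⟩ := horb l h2
          have h5 : X.y l ≠ 0 ∧ X.t l = 1 := ⟨by rw [h3]; exact hky, h4⟩
          have h6 : (if X.y l ≠ 0 ∧ X.t l = 1 then ((X.y l : ℤ) : ℂ) else 0) = yk := by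
            rw [if_pos h5, h3]
          simp only [h6, if_pos h2, if_neg hlo]
          ring
        · simp only [if_neg h2, if_neg hlo]
          ring
    rw [Finset.sum_congr rfl fun l _ => h1 l, Finset.sum_add_distrib, ← Finset.mul_sum,
      ← Finset.mul_sum, Finset.sum_ite_mem, Finset.univ_inter, Finset.sum_const, nsmul_eq_mul,
      Finset.sum_ite_eq' Finset.univ X.o, if_pos (Finset.mem_univ _), ← hr, hgx]
    ring
  have hGG : ∑ l, G l * G l = g ^ 2 * r + (r * yk) ^ 2 := by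
    have h1 : ∀ l, G l * G l = g ^ 2 * (if l ∈ Orb X k then 1 else 0) +
        (r * yk) ^ 2 * (if l = X.o then 1 else 0) := by
      intro l
      rw [hG]
      by_cases hlo : l = X.o
      · rw [hlo]
        simp only [if_neg hoorb, if_true]
        ring
      · simp only [if_neg hlo]
        split_ifs <;> ring
    rw [Finset.sum_congr rfl fun l _ => h1 l, Finset.sum_add_distrib, ← Finset.mul_sum,
      ← Finset.mul_sum, Finset.sum_ite_mem, Finset.univ_inter, Finset.sum_const, nsmul_eq_mul,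
      Finset.sum_ite_eq' Finset.univ X.o, if_pos (Finset.mem_univ _), ← hr]
    ring
  have hVV : ∑ l, V l * V l = g * r * W := by
    have h1 : ∀ l, V l * V l = (r * yk) ^ 2 * (Y0 l * Y0 l) - 2 * (r * yk) * p * (Y0 l * G l) +
        (p : ℂ) ^ 2 * (G l * G l) := by
      intro l
      rw [hV]
      ring
    rw [Finset.sum_congr rfl fun l _ => h1 l, Finset.sum_add_distrib, Finset.sum_sub_distrib,
      ← Finset.mul_sum, ← Finset.mul_sum, ← Finset.mul_sum, hYY, hYG, hGG, hW, hgx]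
    ring
  -- reality
  have hconjN : ∀ n : ℤ, conj ((n : ℤ) : ℂ) = ((n : ℤ) : ℂ) := fun n => by simp
  have hcg : conj g = g := by rw [hg]; simp
  have hcr : conj r = r := by rw [hr]; simp
  have hcy : conj yk = yk := by rw [hyk]; simp
  have hcV : ∀ l, conj (V l) = V l := by
    intro l
    rw [hV, hG, hY0]
    simp only [map_add, map_neg, map_mul, hcg, hcr, hcy, Complex.conj_natCast]
    split_ifs <;> simp
  have hcW : conj W = W := by
    rw [hW]
    simp only [map_mul, map_sub, hcg, hcr, hcy, Complex.conj_natCast]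
  -- support of V
  have hVs : ∀ l, ¬ (X.y l ≠ 0 ∧ X.t l = 1) → V l = 0 := by
    intro l hl
    have h1 : l ∉ Orb X k := by
      intro h
      obtain ⟨h3, h4, -⟩ := horb l h
      exact hl ⟨by rw [h3]; exact hky, h4⟩
    have h2 : l ≠ X.o := by
      rintro rfl
      exact hl ⟨hyo, X.t_o⟩
    rw [hV, hG, hY0]
    simp only [if_neg hl, if_neg h1, if_neg h2]
    ring
  -- the sum of squares
  have hD : ∑ l, (if X.y l ≠ 0 ∧ X.t l = 1 then g * r * X.s k l - V l else 0) *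
      conj (if X.y l ≠ 0 ∧ X.t l = 1 then g * r * X.s k l - V l else 0) = 0 := by
    have h1 : ∀ l, (if X.y l ≠ 0 ∧ X.t l = 1 then g * r * X.s k l - V l else 0) *
        conj (if X.y l ≠ 0 ∧ X.t l = 1 then g * r * X.s k l - V l else 0) =
        (g * r) ^ 2 * (if X.y l ≠ 0 ∧ X.t l = 1 then X.s k l * conj (X.s k l) else 0)
        - g * r * (X.s k l * V l) - g * r * conj (X.s k l * V l) + V l * V l := by
      intro l
      by_cases h2 : X.y l ≠ 0 ∧ X.t l = 1
      · simp only [if_pos h2, map_sub, map_mul, hcg, hcr, hcV]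
        ring
      · simp only [if_neg h2, hVs l h2, map_zero, mul_zero]
        ring
    rw [Finset.sum_congr rfl fun l _ => h1 l, Finset.sum_add_distrib, Finset.sum_sub_distrib,
      Finset.sum_sub_distrib, ← Finset.mul_sum, ← Finset.mul_sum, ← Finset.mul_sum, ← map_sum,
      hsV, hVV, hcW, ← hS]
    linear_combination (g * r) * hNS
  have hD2 : ∑ l, Complex.normSq (if X.y l ≠ 0 ∧ X.t l = 1 then g * r * X.s k l - V l else 0) = 0 := by
    have h1 : ((∑ l, Complex.normSq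
        (if X.y l ≠ 0 ∧ X.t l = 1 then g * r * X.s k l - V l else 0) : ℝ) : ℂ) = 0 := by
      rw [Complex.ofReal_sum]
      refine Eq.trans (Finset.sum_congr rfl fun l _ => ?_) hD
      rw [Complex.mul_conj]
    exact_mod_cast h1
  have hD3 := (Finset.sum_eq_zero_iff_of_nonneg (fun l _ => Complex.normSq_nonneg _)).1 hD2 l₀
    (Finset.mem_univ _)
  rw [Complex.normSq_eq_zero, if_pos ⟨hl₀, htl₀⟩, sub_eq_zero] at hD3
  rw [hD3, hV, hG, hY0]
  simp only [if_pos (show X.y l₀ ≠ 0 ∧ X.t l₀ = 1 from ⟨hl₀, htl₀⟩)]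

end Pool.Agent.Helper7.PQ0
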